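import Pool.Agent.BSE.Defs3

/-!
# Level 3: the total inequality of the certificate
-/

open Finset

namespace Pool.Agent.BSE.H61

variable {n : ℕ}

theorem sum_sq_sub (x : Fin n → ℝ) :
    ∑ p, ∑ q, (x p - x q) ^ 2 = 2 * (n * ∑ i, x i ^ 2 - (∑ i, x i) ^ 2) := by
  have h1 : ∀ p q, (x p - x q) ^ 2 = x p ^ 2 + x q ^ 2 - 2 * (x p * x q) := fun p q => by ring
  simp only [h1, sum_sub_distrib, sum_add_distrib, ← mul_sum, ← sum_mul, sum_const, card_univ,
    Fintype.card_fin, nsmul_eq_mul]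
  ring

/-- Kronecker delta -/
def dl (i j : Fin n) : ℝ := if i = j then 1 else 0

theorem m3_eq (i j k : Fin n) :
    m3 i j k = 6 - 3 * dl i j - 3 * dl j k - 3 * dl i k + 4 * (dl i j * dl j k) := by
  unfold m3 dl
  by_cases h1 : i = j
  · subst h1
    by_cases h2 : i = k
    · simp only [h2, if_true]; norm_num
    · simp only [h2, if_true, if_false]; norm_num
  · by_cases h2 : j = k
    · subst h2
      simp only [h1, if_true, if_false]; norm_num
    · by_cases h3 : i = k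
      · simp only [if_neg h1, if_neg h2, if_pos h3]; norm_num
      · simp only [if_neg h1, if_neg h2, if_neg h3]; norm_num

theorem m3_sq (i j k : Fin n) :
    m3 i j k ^ 2 = 36 - 27 * dl i j - 27 * dl j k - 27 * dl i k + 46 * (dl i j * dl j k) := by
  unfold m3 dl
  by_cases h1 : i = j
  · subst h1
    by_cases h2 : i = k
    · simp only [h2, if_true]; norm_num
    · simp only [h2, if_true, if_false]; norm_num
  · by_cases h2 : j = k
    · subst h2
      simp only [h1, if_true, if_false]; norm_num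
    · by_cases h3 : i = k
      · simp only [if_neg h1, if_neg h2, if_pos h3]; norm_num
      · simp only [if_neg h1, if_neg h2, if_neg h3]; norm_num

theorem sum_dl_left (k : Fin n) (g : Fin n → ℝ) : ∑ i, dl i k * g i = g k := by
  simp [dl]

theorem sum_dl_right (k : Fin n) (g : Fin n → ℝ) : ∑ i, dl k i * g i = g k := by
  simp [dl]

section
variable (F : Fin n → Fin n → Fin n → ℝ)

/-- sum over the first index of the coefficient -/
theorem sum_cf (hS : Sym3 F) (hT : Tin3 F) (k l : Fin n) :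
    ∑ i, cf F i k l = -3 * (F k k l + F l l k) + 4 * (dl k l * F k k k) := by
  have h1 : ∀ i, cf F i k l = 6 * F i k l - 3 * (dl i k * F i k l) - 3 * (dl k l * F i k l)
      - 3 * (dl i l * F i k l) + 4 * (dl k l * (dl i k * F i k l)) := fun i => by
    unfold cf; rw [m3_eq]; ring
  simp only [h1, sum_add_distrib, sum_sub_distrib, ← mul_sum, sum_dl_left, hT k l]
  have h2 : F l k l = F l l k := hS.2 l k l
  rw [h2]
  by_cases h : k = l
  · subst h; simp [dl]; ring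
  · simp [dl, h]; ring

/-- sum over the first index of the squares of the coefficients -/
theorem sum_cf_sq (hS : Sym3 F) (k l : Fin n) :
    ∑ i, cf F i k l ^ 2 = 36 * (∑ i, F i k l ^ 2) - 27 * F k k l ^ 2
      - 27 * (dl k l * ∑ i, F i k k ^ 2) - 27 * F l l k ^ 2 + 46 * (dl k l * F k k k ^ 2) := by
  have h1 : ∀ i, cf F i k l ^ 2 = 36 * F i k l ^ 2 - 27 * (dl i k * F i k l ^ 2)
      - 27 * (dl k l * F i k l ^ 2) - 27 * (dl i l * F i k l ^ 2)
      + 46 * (dl k l * (dl i k * F i k l ^ 2)) := fun i => by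
    unfold cf; rw [mul_pow, m3_sq]; ring
  simp only [h1, sum_add_distrib, sum_sub_distrib, ← mul_sum, sum_dl_left]
  have h2 : F l k l = F l l k := hS.2 l k l
  rw [h2]
  by_cases h : k = l
  · subst h; simp [dl]
  · simp [dl, h]

theorem cf_iim (i m : Fin n) : cf F i i m = 3 * F i i m - 2 * (dl i m * F i i m) := by
  unfold cf m3 dl
  by_cases h : i = m
  · simp only [h, if_true]; ring
  · simp only [h, if_true, if_false]; ring

theorem cf_iim_sq (i m : Fin n) :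
    cf F i i m ^ 2 = 9 * F i i m ^ 2 - 8 * (dl i m * F i i m ^ 2) := by
  unfold cf m3 dl
  by_cases h : i = m
  · simp only [h, if_true]; ring
  · simp only [h, if_true, if_false]; ring

theorem sum_cd (m : Fin n) :
    ∑ i, cf F i i m = 3 * (∑ i, F i i m) - 2 * F m m m := by
  simp only [cf_iim, sum_sub_distrib, ← mul_sum, sum_dl_left]

theorem sum_cd_sq (m : Fin n) :
    ∑ i, cf F i i m ^ 2 = 9 * (∑ i, F i i m ^ 2) - 8 * F m m m ^ 2 := by
  simp only [cf_iim_sq, sum_sub_distrib, ← mul_sum, sum_dl_left]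

/-- sum of squares of all entries -/
def X3 : ℝ := ∑ k, ∑ l, ∑ i, F i k l ^ 2
/-- sum of squares of `F k k l` -/
def X2 : ℝ := ∑ k, ∑ l, F k k l ^ 2
/-- sum of squares of `F k k k` -/
def X1 : ℝ := ∑ k, F k k k ^ 2
/-- mixed sum -/
def Y2 : ℝ := ∑ k, ∑ l, F k k l * F l l k
/-- partial trace -/
def G1 (m : Fin n) : ℝ := ∑ i, F i i m

theorem ip3_self (hS : Sym3 F) : ip3 F F = 6 * X3 F - 9 * X2 F + 4 * X1 F := by
  unfold ip3 X3 X2 X1
  have h1 : ∀ i j k, m3 i j k * (F i j k * F i j k) = 6 * F i j k ^ 2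
      - 3 * (dl i j * F i j k ^ 2) - 3 * (dl j k * F i j k ^ 2) - 3 * (dl i k * F i j k ^ 2)
      + 4 * (dl i j * (dl j k * F i j k ^ 2)) := fun i j k => by
    rw [m3_eq]; ring
  simp only [h1, sum_add_distrib, sum_sub_distrib, ← mul_sum, sum_dl_right]
  have e1 : ∑ i, ∑ j, ∑ k, F i j k ^ 2 = ∑ k, ∑ l, ∑ i, F i k l ^ 2 := by
    rw [sum_comm]
    refine sum_congr rfl fun j _ => ?_
    rw [sum_comm]
  have e3 : ∑ i, ∑ j, F i j j ^ 2 = ∑ k, ∑ l, F k k l ^ 2 := by
    rw [sum_comm]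
    refine sum_congr rfl fun j _ => sum_congr rfl fun i _ => ?_
    rw [hS.1 i j j, hS.2 j i j]
  have e4 : ∑ i, ∑ j, F i j i ^ 2 = ∑ k, ∑ l, F k k l ^ 2 := by
    refine sum_congr rfl fun i _ => sum_congr rfl fun j _ => ?_
    rw [hS.2 i j i]
  rw [e1, e3, e4]
  ring

theorem kap_eq (k l : Fin n) : kap k l = 2 / 9 + 4 / 9 * dl k l := by
  unfold kap dl
  by_cases h : k = l
  · simp only [if_pos h]; norm_num
  · simp only [if_neg h]; norm_num

theorem X2_swap : ∑ k, ∑ l, F l l k ^ 2 = X2 F := by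
  unfold X2
  rw [sum_comm]

theorem sum_kap_sq (hS : Sym3 F) :
    ∑ k, ∑ l, kap k l * ∑ i, cf F i k l ^ 2 = 8 * X3 F - 14 * X2 F + 20 / 3 * X1 F := by
  have hx : ∑ k, ∑ i, F i k k ^ 2 = X2 F := by
    unfold X2
    refine sum_congr rfl fun k _ => sum_congr rfl fun i _ => ?_
    rw [hS.1 i k k, hS.2 k i k]
  have h1 : ∀ k l, kap k l * ∑ i, cf F i k l ^ 2 =
      8 * (∑ i, F i k l ^ 2) - 6 * F k k l ^ 2 - 6 * F l l k ^ 2
      + dl k l * (-2 * (∑ i, F i k k ^ 2) + 20 / 3 * F k k k ^ 2) := fun k l => by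
    rw [sum_cf_sq F hS, kap_eq]
    by_cases h : k = l
    · subst h
      simp only [dl, if_true]
      ring
    · simp only [dl, if_neg h]
      ring
  simp only [h1, sum_add_distrib, sum_sub_distrib, ← mul_sum]
  rw [X2_swap]
  have h2 : ∑ k, ∑ l, dl k l * (-2 * (∑ i, F i k k ^ 2) + 20 / 3 * F k k k ^ 2) =
      -2 * X2 F + 20 / 3 * X1 F := by
    have : ∀ k, ∑ l, dl k l * (-2 * (∑ i, F i k k ^ 2) + 20 / 3 * F k k k ^ 2) =
        -2 * (∑ i, F i k k ^ 2) + 20 / 3 * F k k k ^ 2 := fun k =>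
      sum_dl_right k (fun _ => -2 * (∑ i, F i k k ^ 2) + 20 / 3 * F k k k ^ 2)
    simp only [this, sum_add_distrib, ← mul_sum]
    rw [hx]
    rfl
  rw [h2]
  have h3 : ∑ k, ∑ l, ∑ i, F i k l ^ 2 = X3 F := rfl
  have h4 : ∑ k, ∑ l, F k k l ^ 2 = X2 F := rfl
  rw [h3, h4]
  ring

theorem sum_kap_mean (hS : Sym3 F) (hT : Tin3 F) :
    ∑ k, ∑ l, kap k l * (∑ i, cf F i k l) ^ 2 = 4 * X2 F + 4 * Y2 F - 16 / 3 * X1 F := by
  have h1 : ∀ k l, kap k l * (∑ i, cf F i k l) ^ 2 =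
      2 * F k k l ^ 2 + 2 * F l l k ^ 2 + 4 * (F k k l * F l l k)
      - 16 / 3 * (dl k l * F k k k ^ 2) := fun k l => by
    rw [sum_cf F hS hT, kap_eq]
    by_cases h : k = l
    · subst h
      simp only [dl, if_true]
      ring
    · simp only [dl, if_neg h]
      ring
  simp only [h1, sum_add_distrib, sum_sub_distrib, ← mul_sum]
  rw [X2_swap]
  have h2 : ∑ k, ∑ l, dl k l * F k k k ^ 2 = X1 F := by
    unfold X1
    exact sum_congr rfl fun k _ => sum_dl_right k (fun _ => F k k k ^ 2)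
  have h4 : ∑ k, ∑ l, F k k l ^ 2 = X2 F := rfl
  have h5 : ∑ k, ∑ l, F k k l * F l l k = Y2 F := rfl
  rw [h2, h4, h5]
  ring

theorem sum_kpair :
    ∑ p, ∑ q, kpair F p q =
      2 * (n * (∑ k, ∑ l, kap k l * ∑ i, cf F i k l ^ 2) -
        ∑ k, ∑ l, kap k l * (∑ i, cf F i k l) ^ 2) +
      (2 / 3) * (n * (∑ m, ∑ i, cf F i i m ^ 2) - ∑ m, (∑ i, cf F i i m) ^ 2) := by
  unfold kpair
  simp only [sum_add_distrib, ← mul_sum]
  have h1 : ∑ p, ∑ q, ∑ k, ∑ l, kap k l * (cf F p k l - cf F q k l) ^ 2 =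
      ∑ k, ∑ l, kap k l * (2 * (n * ∑ i, cf F i k l ^ 2 - (∑ i, cf F i k l) ^ 2)) := by
    have e1 : ∀ p, ∑ q, ∑ k, ∑ l, kap k l * (cf F p k l - cf F q k l) ^ 2 =
        ∑ k, ∑ l, ∑ q, kap k l * (cf F p k l - cf F q k l) ^ 2 := fun p => by
      rw [sum_comm]
      exact sum_congr rfl fun k _ => sum_comm
    simp only [e1]
    rw [sum_comm]
    refine sum_congr rfl fun k _ => ?_
    rw [sum_comm]
    refine sum_congr rfl fun l _ => ?_
    simp only [← mul_sum]
    rw [sum_sq_sub]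
  have h2 : ∑ p, ∑ q, ∑ m, (cf F p p m - cf F q q m) ^ 2 =
      ∑ m, 2 * (n * ∑ i, cf F i i m ^ 2 - (∑ i, cf F i i m) ^ 2) := by
    have e1 : ∀ p, ∑ q, ∑ m, (cf F p p m - cf F q q m) ^ 2 =
        ∑ m, ∑ q, (cf F p p m - cf F q q m) ^ 2 := fun p => sum_comm
    simp only [e1]
    rw [sum_comm]
    exact sum_congr rfl fun m _ => sum_sq_sub _
  rw [h1, h2]
  have h3 : ∀ k l, kap k l * (2 * (n * ∑ i, cf F i k l ^ 2 - (∑ i, cf F i k l) ^ 2)) =
      (2 * n) * (kap k l * ∑ i, cf F i k l ^ 2) - 2 * (kap k l * (∑ i, cf F i k l) ^ 2) :=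
    fun k l => by ring
  have h4 : ∀ m, 2 * (n * ∑ i, cf F i i m ^ 2 - (∑ i, cf F i i m) ^ 2) =
      (2 * n) * (∑ i, cf F i i m ^ 2) - 2 * (∑ i, cf F i i m) ^ 2 := fun m => by ring
  simp only [h3, h4, sum_sub_distrib, ← mul_sum]
  ring

theorem G1_sum (hT : Tin3 F) (hS : Sym3 F) : ∑ m, G1 F m = 0 := by
  unfold G1
  rw [sum_comm]
  refine sum_eq_zero fun i _ => ?_
  have : ∀ m, F i i m = F m i i := fun m => by rw [hS.2 i i m, hS.1 i m i]
  simp only [this]
  exact hT i i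

theorem sum_llk (hT : Tin3 F) (hS : Sym3 F) (l : Fin n) : ∑ k, F l l k = 0 := by
  have : ∀ m, F l l m = F m l l := fun m => by rw [hS.2 l l m, hS.1 l m l]
  simp only [this]
  exact hT l l

theorem ineq_one (hS : Sym3 F) (hT : Tin3 F) :
    ∑ m, G1 F m ^ 2 ≤ n * X2 F - n * Y2 F := by
  rcases Nat.eq_zero_or_pos n with hn | hn
  · subst hn; simp [G1, X2, Y2]
  have hn' : (0:ℝ) < n := by exact_mod_cast hn
  have key : 0 ≤ ∑ k, ∑ l, (n * (F k k l - F l l k) - (G1 F l - G1 F k)) ^ 2 :=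
    sum_nonneg fun k _ => sum_nonneg fun l _ => sq_nonneg _
  have e1 : ∀ k l, (n * (F k k l - F l l k) - (G1 F l - G1 F k)) ^ 2 =
      (n:ℝ) ^ 2 * F k k l ^ 2 + (n:ℝ) ^ 2 * F l l k ^ 2 - 2 * (n:ℝ) ^ 2 * (F k k l * F l l k)
      - 2 * n * (F k k l * G1 F l) + 2 * n * (G1 F k * F k k l) + 2 * n * (G1 F l * F l l k)
      - 2 * n * (F l l k * G1 F k) + (G1 F l - G1 F k) ^ 2 := fun k l => by ring
  simp only [e1, sum_add_distrib, sum_sub_distrib, ← mul_sum] at key
  have a1 : ∑ k, ∑ l, F k k l ^ 2 = X2 F := rfl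
  have a2 : ∑ k, ∑ l, F k k l * F l l k = Y2 F := rfl
  have a3 : ∑ k, ∑ l, F k k l * G1 F l = ∑ m, G1 F m ^ 2 := by
    rw [sum_comm]
    refine sum_congr rfl fun l _ => ?_
    rw [← sum_mul]
    change G1 F l * G1 F l = _
    ring
  have a4 : ∑ k, G1 F k * ∑ l, F k k l = 0 := by
    refine sum_eq_zero fun k _ => ?_
    rw [sum_llk F hT hS, mul_zero]
  have a5 : ∑ k, ∑ l, G1 F l * F l l k = 0 := by
    rw [sum_comm]
    refine sum_eq_zero fun l _ => ?_
    rw [← mul_sum, sum_llk F hT hS, mul_zero]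
  have a6 : ∑ k, ∑ l, F l l k * G1 F k = ∑ m, G1 F m ^ 2 := by
    refine sum_congr rfl fun k _ => ?_
    rw [← sum_mul]
    change G1 F k * G1 F k = _
    ring
  have a7 : ∑ k, ∑ l, (G1 F l - G1 F k) ^ 2 = 2 * (n * ∑ m, G1 F m ^ 2) := by
    rw [sum_comm, sum_sq_sub, G1_sum F hT hS]
    ring
  rw [X2_swap, a1, a2, a3, a4, a5, a6, a7] at key
  have h3 : 0 ≤ 2 * (n:ℝ) * (n * X2 F - n * Y2 F - ∑ m, G1 F m ^ 2) := by
    nlinarith [key]
  have h4 : 0 ≤ n * X2 F - n * Y2 F - ∑ m, G1 F m ^ 2 := by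
    by_contra hc
    push_neg at hc
    have : 2 * (n:ℝ) * (n * X2 F - n * Y2 F - ∑ m, G1 F m ^ 2) < 0 :=
      mul_neg_of_pos_of_neg (by positivity) hc
    linarith
  linarith

theorem ineq_two (hS : Sym3 F) (hT : Tin3 F) :
    ∑ m, (G1 F m - 2 * F m m m) ^ 2 ≤ n * (2 * X2 F + 2 * Y2 F - 4 * X1 F) := by
  have e0 : ∀ m, G1 F m - 2 * F m m m = ∑ k, (F k k m + F m m k - 2 * (dl k m * F m m m)) :=
    fun m => by
      simp only [sum_add_distrib, sum_sub_distrib, ← mul_sum, sum_dl_left]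
      rw [sum_llk F hT hS]
      unfold G1
      ring
  have e1 : ∀ m, (G1 F m - 2 * F m m m) ^ 2 ≤
      n * ∑ k, (F k k m + F m m k - 2 * (dl k m * F m m m)) ^ 2 := fun m => by
    rw [e0]
    have := sq_sum_le_card_mul_sum_sq (s := (univ : Finset (Fin n)))
      (f := fun k => F k k m + F m m k - 2 * (dl k m * F m m m))
    simpa using this
  refine (sum_le_sum fun m _ => e1 m).trans ?_
  rw [← mul_sum]
  refine le_of_eq ?_
  congr 1
  have e2 : ∀ k m, (F k k m + F m m k - 2 * (dl k m * F m m m)) ^ 2 =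
      F k k m ^ 2 + F m m k ^ 2 + 2 * (F k k m * F m m k) - 4 * (dl k m * F m m m ^ 2) :=
    fun k m => by
      by_cases h : k = m
      · subst h
        simp only [dl, if_true]
        ring
      · simp only [dl, if_neg h]
        ring
  simp only [e2, sum_add_distrib, sum_sub_distrib, ← mul_sum, sum_dl_left]
  rw [show ∑ m, ∑ k, F k k m ^ 2 = X2 F from X2_swap F]
  have a1 : ∑ m, ∑ k, F m m k ^ 2 = X2 F := rfl
  have a2 : ∑ m, ∑ k, F k k m * F m m k = Y2 F := by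
    unfold Y2
    rw [sum_comm]
  rw [a1, a2]
  have a3 : ∑ m, F m m m ^ 2 = X1 F := rfl
  rw [a3]
  ring

theorem ineq_three (hS : Sym3 F) (hT : Tin3 F) :
    2 * X2 F + 2 * Y2 F - 4 * X1 F ≤ n * (X3 F - 3 * X2 F + 2 * X1 F) := by
  have e0 : ∀ k l, F k k l + F l l k - 2 * (dl k l * F k k k) =
      -∑ i, F i k l * (1 - dl i k - dl k l - dl i l + 2 * (dl k l * dl i k)) := fun k l => by
    have h1 : ∀ i, F i k l * (1 - dl i k - dl k l - dl i l + 2 * (dl k l * dl i k)) =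
        F i k l - dl i k * F i k l - dl k l * F i k l - dl i l * F i k l
        + 2 * (dl k l * (dl i k * F i k l)) := fun i => by ring
    simp only [h1, sum_add_distrib, sum_sub_distrib, ← mul_sum, sum_dl_left, hT k l]
    rw [hS.2 l k l]
    by_cases h : k = l
    · subst h
      simp only [dl, if_true]
      ring
    · simp only [dl, if_neg h]
      ring
  have e1 : ∀ k l, (F k k l + F l l k - 2 * (dl k l * F k k k)) ^ 2 ≤
      n * ∑ i, (F i k l * (1 - dl i k - dl k l - dl i l + 2 * (dl k l * dl i k))) ^ 2 :=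
    fun k l => by
      rw [e0, neg_sq]
      have := sq_sum_le_card_mul_sum_sq (s := (univ : Finset (Fin n)))
        (f := fun i => F i k l * (1 - dl i k - dl k l - dl i l + 2 * (dl k l * dl i k)))
      simpa using this
  have e2 := sum_le_sum fun k (_ : k ∈ (univ : Finset (Fin n))) =>
    sum_le_sum fun l (_ : l ∈ (univ : Finset (Fin n))) => e1 k l
  have e3 : ∀ k l, (F k k l + F l l k - 2 * (dl k l * F k k k)) ^ 2 =
      F k k l ^ 2 + F l l k ^ 2 + 2 * (F k k l * F l l k) - 4 * (dl k l * F k k k ^ 2) :=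
    fun k l => by
      by_cases h : k = l
      · subst h
        simp only [dl, if_true]
        ring
      · simp only [dl, if_neg h]
        ring
  have e4 : ∀ i k l, (F i k l * (1 - dl i k - dl k l - dl i l + 2 * (dl k l * dl i k))) ^ 2 =
      F i k l ^ 2 - dl i k * F i k l ^ 2 - dl k l * F i k l ^ 2 - dl i l * F i k l ^ 2
        + 2 * (dl k l * (dl i k * F i k l ^ 2)) := fun i k l => by
    by_cases h1 : k = l
    · subst h1
      by_cases h2 : i = k
      · simp only [dl, if_pos h2, if_true]; ring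
      · simp only [dl, if_neg h2, if_true]; ring
    · by_cases h2 : i = k
      · subst h2
        simp only [dl, if_neg h1, if_true]; ring
      · by_cases h3 : i = l
        · simp only [dl, if_neg h1, if_neg h2, if_pos h3]; ring
        · simp only [dl, if_neg h1, if_neg h2, if_neg h3]; ring
  simp only [e3, e4, sum_add_distrib, sum_sub_distrib, ← mul_sum, sum_dl_left] at e2
  have a1 : ∑ k, ∑ l, F k k l ^ 2 = X2 F := rfl
  have a2 : ∑ k, ∑ l, F k k l * F l l k = Y2 F := rfl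
  have a3 : ∑ k, ∑ l, dl k l * F k k k ^ 2 = X1 F := by
    unfold X1
    exact sum_congr rfl fun k _ => sum_dl_right k (fun _ => F k k k ^ 2)
  have a4 : ∑ k, ∑ l, ∑ i, F i k l ^ 2 = X3 F := rfl
  have a5 : ∑ k, ∑ l, dl k l * ∑ i, F i k l ^ 2 = X2 F := by
    have : ∀ k, ∑ l, dl k l * ∑ i, F i k l ^ 2 = ∑ i, F i k k ^ 2 := fun k =>
      sum_dl_right k (fun l => ∑ i, F i k l ^ 2)
    simp only [this]
    unfold X2
    refine sum_congr rfl fun k _ => sum_congr rfl fun i _ => ?_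
    rw [hS.1 i k k, hS.2 k i k]
  have a6 : ∑ k, ∑ l, F l k l ^ 2 = X2 F := by
    rw [← X2_swap F]
    refine sum_congr rfl fun k _ => sum_congr rfl fun l _ => ?_
    rw [hS.2 l k l]
  have a7 : ∑ k, ∑ l, dl k l * F k k l ^ 2 = X1 F := by
    unfold X1
    exact sum_congr rfl fun k _ => sum_dl_right k (fun l => F k k l ^ 2)
  rw [X2_swap, a1, a2, a3, a4, a5, a6, a7] at e2
  linarith

/-- TOT3 -/
theorem tot3 (hS : Sym3 F) (hT : Tin3 F) :
    2 * n * ip3 F F ≤ ∑ p, ∑ q, kpair F p q := by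
  rw [sum_kpair, sum_kap_sq F hS, sum_kap_mean F hS hT, ip3_self F hS]
  simp only [sum_cd, sum_cd_sq, sum_sub_distrib, ← mul_sum]
  have a1 : ∑ m, ∑ i, F i i m ^ 2 = X2 F := X2_swap F
  have a2 : ∑ m, F m m m ^ 2 = X1 F := rfl
  have a3 : ∑ m, (3 * (∑ i, F i i m) - 2 * F m m m) ^ 2 =
      2 * ∑ m, (G1 F m - 2 * F m m m) ^ 2 + 7 * ∑ m, G1 F m ^ 2
        - 4 * X1 F - 4 * ∑ m, G1 F m * F m m m := by
    have : ∀ m, (3 * (∑ i, F i i m) - 2 * F m m m) ^ 2 =
        2 * (G1 F m - 2 * F m m m) ^ 2 + 7 * G1 F m ^ 2 - 4 * F m m m ^ 2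
          - 4 * (G1 F m * F m m m) := fun m => by
      unfold G1
      ring
    simp only [this, sum_add_distrib, sum_sub_distrib, ← mul_sum]
    rfl
  have a4 : ∑ m, (G1 F m - 2 * F m m m) ^ 2 =
      ∑ m, G1 F m ^ 2 - 4 * ∑ m, G1 F m * F m m m + 4 * X1 F := by
    have : ∀ m, (G1 F m - 2 * F m m m) ^ 2 =
        G1 F m ^ 2 - 4 * (G1 F m * F m m m) + 4 * F m m m ^ 2 := fun m => by ring
    simp only [this, sum_add_distrib, sum_sub_distrib, ← mul_sum]
    rfl
  rw [a1, a2, a3]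
  have h1 := ineq_one F hS hT
  have h2 := ineq_two F hS hT
  have h3 := ineq_three F hS hT
  rw [a4] at h2
  rw [a4]
  nlinarith [h1, h2, h3]

end

end Pool.Agent.BSE.H61
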