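import Pool.Agent.BSE.Defs3
import Pool.Agent.Helper61_BSE.Tot

/-!
# Level 3: the pair inequality of the certificate
-/

open Finset

namespace Pool.Agent.BSE.H61

variable {n : ℕ}

/-- the indices different from `p` and `q` -/
def RR (p q : Fin n) : Finset (Fin n) := (univ.erase p).erase q

theorem mem_RR {p q k : Fin n} (h : k ∈ RR p q) : k ≠ p ∧ k ≠ q := by
  unfold RR at h
  simp only [mem_erase, mem_univ, and_true] at h
  exact ⟨h.2, h.1⟩

theorem split1 {p q : Fin n} (hpq : p ≠ q) (g : Fin n → ℝ) :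
    ∑ i, g i = g p + g q + ∑ i ∈ RR p q, g i := by
  unfold RR
  have h1 : q ∈ univ.erase p := by simp [Ne.symm hpq]
  rw [← add_sum_erase univ g (mem_univ p), ← add_sum_erase _ g h1]
  ring

theorem split2 {p q : Fin n} (hpq : p ≠ q) (h : Fin n → Fin n → ℝ) (hs : ∀ k l, h k l = h l k) :
    ∑ k, ∑ l, h k l = (h p p + 2 * h p q + h q q) + 2 * (∑ k ∈ RR p q, (h p k + h q k)) +
      ∑ k ∈ RR p q, ∑ l ∈ RR p q, h k l := by
  rw [split1 hpq]
  simp only [split1 hpq (fun l => h _ l)]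
  simp only [sum_add_distrib]
  have e1 : ∑ k ∈ RR p q, h k p = ∑ k ∈ RR p q, h p k := sum_congr rfl fun k _ => hs k p
  have e2 : ∑ k ∈ RR p q, h k q = ∑ k ∈ RR p q, h q k := sum_congr rfl fun k _ => hs k q
  rw [e1, e2, hs q p]
  ring

theorem split3 {p q : Fin n} (hpq : p ≠ q) (h : Fin n → Fin n → Fin n → ℝ)
    (h1 : ∀ i j k, h i j k = h j i k) (h2 : ∀ i j k, h i j k = h i k j) :
    ∑ i, ∑ j, ∑ k, h i j k = (h p p p + 3 * h p p q + 3 * h p q q + h q q q) +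
      3 * (∑ k ∈ RR p q, (h p p k + 2 * h p q k + h q q k)) +
      3 * (∑ k ∈ RR p q, ∑ l ∈ RR p q, (h p k l + h q k l)) +
      ∑ i ∈ RR p q, ∑ k ∈ RR p q, ∑ l ∈ RR p q, h i k l := by
  rw [split1 hpq]
  have e0 : ∀ i, ∑ j, ∑ k, h i j k = (h i p p + 2 * h i p q + h i q q) +
      2 * (∑ k ∈ RR p q, (h i p k + h i q k)) + ∑ k ∈ RR p q, ∑ l ∈ RR p q, h i k l :=
    fun i => split2 hpq (h i) (h2 i)
  simp only [e0, sum_add_distrib, ← mul_sum]
  have e1 : ∑ i ∈ RR p q, h i p p = ∑ i ∈ RR p q, h p p i :=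
    sum_congr rfl fun i _ => by rw [h1 i p p, h2 p i p]
  have e2 : ∑ i ∈ RR p q, h i p q = ∑ i ∈ RR p q, h p q i :=
    sum_congr rfl fun i _ => by rw [h1 i p q, h2 p i q]
  have e3 : ∑ i ∈ RR p q, h i q q = ∑ i ∈ RR p q, h q q i :=
    sum_congr rfl fun i _ => by rw [h1 i q q, h2 q i q]
  have e4 : ∑ i ∈ RR p q, ∑ k ∈ RR p q, h i p k = ∑ i ∈ RR p q, ∑ k ∈ RR p q, h p i k :=
    sum_congr rfl fun i _ => sum_congr rfl fun k _ => h1 i p k
  have e5 : ∑ i ∈ RR p q, ∑ k ∈ RR p q, h i q k = ∑ i ∈ RR p q, ∑ k ∈ RR p q, h q i k :=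
    sum_congr rfl fun i _ => sum_congr rfl fun k _ => h1 i q k
  have e6 : ∑ i ∈ RR p q, h q p i = ∑ i ∈ RR p q, h p q i :=
    sum_congr rfl fun i _ => h1 q p i
  have e7 : h q p p = h p p q := by rw [h1 q p p, h2 p q p]
  have e8 : h q p q = h p q q := h1 q p q
  rw [e1, e2, e3, e4, e5, e6, e7, e8]
  ring

theorem intc (a : ℝ) (f : ℝ → ℝ) (h : ∫ u in (0:ℝ)..1, f u = a) : ∫ u in (0:ℝ)..1, f u = a := h

theorem i0 : ∫ _u in (0:ℝ)..1, (1:ℝ) = 1 := by simp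
theorem i1 : ∫ u in (0:ℝ)..1, u = 1 / 2 := by rw [integral_id]; norm_num
theorem i1' : ∫ u in (0:ℝ)..1, (1 - u) = 1 / 2 := by
  rw [intervalIntegral.integral_sub (by simp) (by simp)]
  simp [integral_id]; norm_num
theorem ipow (m : ℕ) : ∫ u in (0:ℝ)..1, u ^ m = 1 / (m + 1) := by
  rw [integral_pow]; simp

end Pool.Agent.BSE.H61
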