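import Pool.Agent.BSE.Stmts3
import Pool.Agent.Helper61_BSE.Pair

/-!
# Level 3: the pair inequality of the certificate (QF3)
-/

open Finset

namespace Pool.Agent.BSE.H61

variable {n : ℕ}

theorem rp_in {p q : Fin n} {i : Fin n} (h : i = p ∨ i = q) (g : Fin n → ℝ) :
    rp p q g i = g p + g q := by
  unfold rp; rw [if_pos h]

theorem rp_out {p q : Fin n} {i : Fin n} (h : ¬ (i = p ∨ i = q)) (g : Fin n → ℝ) :
    rp p q g i = g i := by
  unfold rp; rw [if_neg h]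

/-- the replaced tensor -/
def R3 (p q : Fin n) (F : Fin n → Fin n → Fin n → ℝ) (i j k : Fin n) : ℝ :=
  rp p q (fun a => rp p q (fun b => rp p q (fun d => F a b d) k) j) i

theorem R3_swap1 (p q : Fin n) (F : Fin n → Fin n → Fin n → ℝ) (hS : Sym3 F) (i j k : Fin n) :
    R3 p q F i j k = R3 p q F j i k := by
  unfold R3
  by_cases hi : i = p ∨ i = q <;> by_cases hj : j = p ∨ j = q <;>
    by_cases hk : k = p ∨ k = q
  all_goals simp only [rp_in, rp_out, hi, hj, hk, not_false_eq_true, hi, hj]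
  · rw [hS.1 j p p, hS.1 j p q, hS.1 j q p, hS.1 j q q]
  · rw [hS.1 j p k, hS.1 j q k]
  · rw [hS.1 i p p, hS.1 i p q, hS.1 i q p, hS.1 i q q]
  · rw [hS.1 i p k, hS.1 i q k]
  · rw [hS.1 i j p, hS.1 i j q]
  · rw [hS.1 i j k]

theorem R3_swap2 (p q : Fin n) (F : Fin n → Fin n → Fin n → ℝ) (hS : Sym3 F) (i j k : Fin n) :
    R3 p q F i j k = R3 p q F i k j := by
  unfold R3
  by_cases hi : i = p ∨ i = q <;> by_cases hj : j = p ∨ j = q <;>
    by_cases hk : k = p ∨ k = q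
  all_goals simp only [rp_in, rp_out, hi, hj, hk, not_false_eq_true, hi, hj]
  · rw [hS.2 p k p, hS.2 p k q, hS.2 q k p, hS.2 q k q]
  · rw [hS.2 p j p, hS.2 p j q, hS.2 q j p, hS.2 q j q]
  · rw [hS.2 p j k, hS.2 q j k]
  · rw [hS.2 i k p, hS.2 i k q]
  · rw [hS.2 i j p, hS.2 i j q]
  · rw [hS.2 i j k]

theorem PT_eq (p q : Fin n) (F : Fin n → Fin n → Fin n → ℝ) (i j k : Fin n) :
    PT p q F i j k = (∫ u in (0:ℝ)..1, tw p q u i * tw p q u j * tw p q u k) * R3 p q F i j k :=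
  rfl

theorem PT_sym (p q : Fin n) (F : Fin n → Fin n → Fin n → ℝ) (hS : Sym3 F) :
    Sym3 (PT p q F) := by
  constructor
  · intro i j k
    rw [PT_eq, PT_eq, R3_swap1 p q F hS]
    congr 1
    refine intervalIntegral.integral_congr fun u _ => ?_
    ring
  · intro i j k
    rw [PT_eq, PT_eq, R3_swap2 p q F hS]
    congr 1
    refine intervalIntegral.integral_congr fun u _ => ?_
    ring

theorem tw_p (p q : Fin n) (u : ℝ) : tw p q u p = u := by simp [tw]
theorem tw_q {p q : Fin n} (h : p ≠ q) (u : ℝ) : tw p q u q = 1 - u := by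
  simp [tw, Ne.symm h]
theorem tw_k {p q k : Fin n} (h1 : k ≠ p) (h2 : k ≠ q) (u : ℝ) : tw p q u k = 1 := by
  simp [tw, h1, h2]

theorem int_poly (a b c d : ℝ) :
    ∫ u in (0:ℝ)..1, (a + b * u + c * u ^ 2 + d * u ^ 3) = a + b / 2 + c / 3 + d / 4 := by
  rw [intervalIntegral.integral_add, intervalIntegral.integral_add, intervalIntegral.integral_add,
    intervalIntegral.integral_const_mul, intervalIntegral.integral_const_mul,
    intervalIntegral.integral_const_mul, integral_id, integral_pow, integral_pow]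
  · simp
    norm_num
    ring
  all_goals
    apply Continuous.intervalIntegrable
    fun_prop

section
variable {p q k l : Fin n} (F : Fin n → Fin n → Fin n → ℝ)

theorem pt_pkl (hpq : p ≠ q) (k1 : k ≠ p) (k2 : k ≠ q) (l1 : l ≠ p) (l2 : l ≠ q) :
    PT p q F p k l = (F p k l + F q k l) / 2 := by
  have hk : ¬ (k = p ∨ k = q) := by tauto
  have hl : ¬ (l = p ∨ l = q) := by tauto
  rw [PT_eq, R3, rp_in (Or.inl rfl), rp_out hk, rp_out hl, rp_out hk, rp_out hl]
  simp only [tw_p, tw_k k1 k2, tw_k l1 l2]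
  have := int_poly 0 1 0 0
  have h2 : ∀ u : ℝ, u * 1 * 1 = 0 + 1 * u + 0 * u ^ 2 + 0 * u ^ 3 := fun u => by ring
  simp only [h2, this]
  ring

theorem pt_qkl (hpq : p ≠ q) (k1 : k ≠ p) (k2 : k ≠ q) (l1 : l ≠ p) (l2 : l ≠ q) :
    PT p q F q k l = (F p k l + F q k l) / 2 := by
  have hk : ¬ (k = p ∨ k = q) := by tauto
  have hl : ¬ (l = p ∨ l = q) := by tauto
  rw [PT_eq, R3, rp_in (Or.inr rfl), rp_out hk, rp_out hl, rp_out hk, rp_out hl]
  simp only [tw_q hpq, tw_k k1 k2, tw_k l1 l2]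
  have := int_poly 1 (-1) 0 0
  have h2 : ∀ u : ℝ, (1 - u) * 1 * 1 = 1 + (-1) * u + 0 * u ^ 2 + 0 * u ^ 3 := fun u => by ring
  simp only [h2, this]
  ring

theorem pt_jkl {j : Fin n} (j1 : j ≠ p) (j2 : j ≠ q) (k1 : k ≠ p) (k2 : k ≠ q) (l1 : l ≠ p)
    (l2 : l ≠ q) : PT p q F j k l = F j k l := by
  have hj : ¬ (j = p ∨ j = q) := by tauto
  have hk : ¬ (k = p ∨ k = q) := by tauto
  have hl : ¬ (l = p ∨ l = q) := by tauto
  rw [PT_eq, R3, rp_out hj, rp_out hk, rp_out hl]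
  simp only [tw_k j1 j2, tw_k k1 k2, tw_k l1 l2]
  simp

theorem pt_ppk (hpq : p ≠ q) (k1 : k ≠ p) (k2 : k ≠ q) :
    PT p q F p p k = (F p p k + F p q k + (F q p k + F q q k)) / 3 := by
  have hk : ¬ (k = p ∨ k = q) := by tauto
  rw [PT_eq, R3, rp_in (Or.inl rfl), rp_in (Or.inl rfl), rp_in (Or.inl rfl)]
  simp only [rp_out hk, tw_p, tw_k k1 k2]
  have := int_poly 0 0 1 0
  have h2 : ∀ u : ℝ, u * u * 1 = 0 + 0 * u + 1 * u ^ 2 + 0 * u ^ 3 := fun u => by ring
  simp only [h2, this]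
  ring

theorem pt_pqk (hpq : p ≠ q) (k1 : k ≠ p) (k2 : k ≠ q) :
    PT p q F p q k = (F p p k + F p q k + (F q p k + F q q k)) / 6 := by
  have hk : ¬ (k = p ∨ k = q) := by tauto
  rw [PT_eq, R3, rp_in (Or.inl rfl), rp_in (Or.inr rfl), rp_in (Or.inr rfl)]
  simp only [rp_out hk, tw_p, tw_q hpq, tw_k k1 k2]
  have := int_poly 0 1 (-1) 0
  have h2 : ∀ u : ℝ, u * (1 - u) * 1 = 0 + 1 * u + (-1) * u ^ 2 + 0 * u ^ 3 := fun u => by ring
  simp only [h2, this]
  ring

theorem pt_qqk (hpq : p ≠ q) (k1 : k ≠ p) (k2 : k ≠ q) :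
    PT p q F q q k = (F p p k + F p q k + (F q p k + F q q k)) / 3 := by
  have hk : ¬ (k = p ∨ k = q) := by tauto
  rw [PT_eq, R3, rp_in (Or.inr rfl), rp_in (Or.inr rfl), rp_in (Or.inr rfl)]
  simp only [rp_out hk, tw_q hpq, tw_k k1 k2]
  have := int_poly 1 (-2) 1 0
  have h2 : ∀ u : ℝ, (1 - u) * (1 - u) * 1 = 1 + (-2) * u + 1 * u ^ 2 + 0 * u ^ 3 :=
    fun u => by ring
  simp only [h2, this]
  ring

/-- the sum of the eight entries -/
def S8 (p q : Fin n) (F : Fin n → Fin n → Fin n → ℝ) : ℝ :=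
  F p p p + F p p q + (F p q p + F p q q) + (F q p p + F q p q + (F q q p + F q q q))

theorem pt_ppp : PT p q F p p p = S8 p q F / 4 := by
  rw [PT_eq, R3, rp_in (Or.inl rfl), rp_in (Or.inl rfl), rp_in (Or.inl rfl)]
  simp only [rp_in (i := p) (Or.inl rfl), tw_p]
  have := int_poly 0 0 0 1
  have h2 : ∀ u : ℝ, u * u * u = 0 + 0 * u + 0 * u ^ 2 + 1 * u ^ 3 := fun u => by ring
  simp only [h2, this]
  unfold S8
  ring

theorem pt_ppq (hpq : p ≠ q) : PT p q F p p q = S8 p q F / 12 := by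
  rw [PT_eq, R3, rp_in (Or.inl rfl), rp_in (Or.inl rfl), rp_in (Or.inl rfl)]
  simp only [rp_in (i := q) (Or.inr rfl), tw_p, tw_q hpq]
  have := int_poly 0 0 1 (-1)
  have h2 : ∀ u : ℝ, u * u * (1 - u) = 0 + 0 * u + 1 * u ^ 2 + (-1) * u ^ 3 := fun u => by ring
  simp only [h2, this]
  unfold S8
  ring

theorem pt_pqq (hpq : p ≠ q) : PT p q F p q q = S8 p q F / 12 := by
  rw [PT_eq, R3, rp_in (Or.inl rfl), rp_in (Or.inr rfl), rp_in (Or.inr rfl)]
  simp only [rp_in (i := q) (Or.inr rfl), tw_p, tw_q hpq]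
  have := int_poly 0 1 (-2) 1
  have h2 : ∀ u : ℝ, u * (1 - u) * (1 - u) = 0 + 1 * u + (-2) * u ^ 2 + 1 * u ^ 3 :=
    fun u => by ring
  simp only [h2, this]
  unfold S8
  ring

theorem pt_qqq (hpq : p ≠ q) : PT p q F q q q = S8 p q F / 4 := by
  rw [PT_eq, R3, rp_in (Or.inr rfl), rp_in (Or.inr rfl), rp_in (Or.inr rfl)]
  simp only [rp_in (i := q) (Or.inr rfl), tw_q hpq]
  have := int_poly 1 (-3) 3 (-1)
  have h2 : ∀ u : ℝ, (1 - u) * (1 - u) * (1 - u) = 1 + (-3) * u + 3 * u ^ 2 + (-1) * u ^ 3 :=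
    fun u => by ring
  simp only [h2, this]
  unfold S8
  ring

end

theorem m3_swap1 (i j k : Fin n) : m3 i j k = m3 j i k := by
  rw [m3_eq, m3_eq]
  unfold dl
  by_cases h1 : i = j
  · subst h1; ring
  · rw [if_neg h1, if_neg (Ne.symm h1)]
    ring

theorem m3_swap2 (i j k : Fin n) : m3 i j k = m3 i k j := by
  rw [m3_eq, m3_eq]
  unfold dl
  by_cases h1 : j = k
  · subst h1; ring
  · rw [if_neg h1, if_neg (Ne.symm h1)]
    ring

/-- m3 in the form of deltas, values -/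
theorem m3_ppp (p : Fin n) : m3 p p p = 1 := by simp [m3]
theorem m3_ppq {p q : Fin n} (h : p ≠ q) : m3 p p q = 3 := by simp [m3, h]
theorem m3_pqq {p q : Fin n} (h : p ≠ q) : m3 p q q = 3 := by simp [m3, h]
theorem m3_pqk {p q k : Fin n} (h : p ≠ q) (h1 : k ≠ p) (h2 : k ≠ q) : m3 p q k = 6 := by
  simp [m3, h, Ne.symm h1, Ne.symm h2]

theorem kap_nn (k l : Fin n) : 0 ≤ kap k l := by
  unfold kap; split_ifs <;> norm_num

theorem kap_symm (k l : Fin n) : kap k l = kap l k := by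
  unfold kap
  by_cases h : k = l
  · subst h; rfl
  · rw [if_neg h, if_neg (Ne.symm h)]

theorem qf3 : QF3Stmt := by
  intro n p q hpq F hS
  have hP := PT_sym p q F hS
  -- the right side as a symmetric sum
  have hR : ip3 F F - ip3 F (PT p q F) =
      ∑ i, ∑ j, ∑ k, m3 i j k * (F i j k * (F i j k - PT p q F i j k)) := by
    unfold ip3
    simp only [← sum_sub_distrib]
    refine sum_congr rfl fun i _ => sum_congr rfl fun j _ => sum_congr rfl fun k _ => ?_
    ring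
  have hs1 : ∀ i j k, m3 i j k * (F i j k * (F i j k - PT p q F i j k)) =
      m3 j i k * (F j i k * (F j i k - PT p q F j i k)) := fun i j k => by
    rw [m3_swap1 i j k, hS.1 i j k, hP.1 i j k]
  have hs2 : ∀ i j k, m3 i j k * (F i j k * (F i j k - PT p q F i j k)) =
      m3 i k j * (F i k j * (F i k j - PT p q F i k j)) := fun i j k => by
    rw [m3_swap2 i j k, hS.2 i j k, hP.2 i j k]
  rw [hR, split3 hpq _ hs1 hs2]
  -- the left side
  unfold kpair
  have ht : ∀ k l, kap k l * (cf F p k l - cf F q k l) ^ 2 =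
      kap l k * (cf F p l k - cf F q l k) ^ 2 := fun k l => by
    unfold cf
    rw [kap_symm k l, m3_swap2 p k l, m3_swap2 q k l, hS.2 p k l, hS.2 q k l]
  rw [split2 hpq _ ht, split1 hpq]
  -- triple sum vanishes
  have hz : ∑ i ∈ RR p q, ∑ k ∈ RR p q, ∑ l ∈ RR p q,
      m3 i k l * (F i k l * (F i k l - PT p q F i k l)) = 0 := by
    refine sum_eq_zero fun i hi => sum_eq_zero fun k hk => sum_eq_zero fun l hl => ?_
    obtain ⟨i1, i2⟩ := mem_RR hi
    obtain ⟨k1, k2⟩ := mem_RR hk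
    obtain ⟨l1, l2⟩ := mem_RR hl
    rw [pt_jkl F i1 i2 k1 k2 l1 l2]
    ring
  rw [hz]
  -- double sums
  have hd : ∑ k ∈ RR p q, ∑ l ∈ RR p q, kap k l * (cf F p k l - cf F q k l) ^ 2 ≤
      6 * ∑ k ∈ RR p q, ∑ l ∈ RR p q,
        (m3 p k l * (F p k l * (F p k l - PT p q F p k l)) +
          m3 q k l * (F q k l * (F q k l - PT p q F q k l))) := by
    rw [mul_sum]
    refine sum_le_sum fun k hk => ?_
    rw [mul_sum]
    refine sum_le_sum fun l hl => ?_
    obtain ⟨k1, k2⟩ := mem_RR hk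
    obtain ⟨l1, l2⟩ := mem_RR hl
    rw [pt_pkl F hpq k1 k2 l1 l2, pt_qkl F hpq k1 k2 l1 l2]
    by_cases hkl : k = l
    · subst hkl
      unfold cf kap
      rw [if_pos rfl, m3_pqq (Ne.symm k1), m3_pqq (Ne.symm k2)]
      nlinarith [sq_nonneg (F p k k - F q k k)]
    · unfold cf kap
      rw [if_neg hkl, m3_pqk (Ne.symm k1) l1 (Ne.symm hkl), m3_pqk (Ne.symm k2) l2 (Ne.symm hkl)]
      nlinarith [sq_nonneg (F p k l - F q k l)]
  -- single sums
  have h1 : 2 * (∑ k ∈ RR p q, (kap p k * (cf F p p k - cf F q p k) ^ 2 +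
        kap q k * (cf F p q k - cf F q q k) ^ 2)) +
      (1 / 3) * ∑ m ∈ RR p q, (cf F p p m - cf F q q m) ^ 2 ≤
      6 * ∑ k ∈ RR p q, (m3 p p k * (F p p k * (F p p k - PT p q F p p k)) +
        2 * (m3 p q k * (F p q k * (F p q k - PT p q F p q k))) +
        m3 q q k * (F q q k * (F q q k - PT p q F q q k))) := by
    rw [mul_sum, mul_sum, mul_sum, ← sum_add_distrib]
    refine sum_le_sum fun k hk => ?_
    obtain ⟨k1, k2⟩ := mem_RR hk
    rw [pt_ppk F hpq k1 k2, pt_pqk F hpq k1 k2, pt_qqk F hpq k1 k2]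
    unfold cf kap
    rw [if_neg (Ne.symm k1), if_neg (Ne.symm k2), m3_ppq (Ne.symm k1), m3_ppq (Ne.symm k2),
      m3_swap1 q p k, m3_pqk hpq k1 k2, hS.1 q p k]
    nlinarith [sq_nonneg (F p p k - 2 * F p q k), sq_nonneg (2 * F p q k - F q q k),
      sq_nonneg (F p p k - F q q k)]
  -- corner
  have h0 : (kap p p * (cf F p p p - cf F q p p) ^ 2 +
        2 * (kap p q * (cf F p p q - cf F q p q) ^ 2) +
        kap q q * (cf F p q q - cf F q q q) ^ 2) +
      (1 / 3) * ((cf F p p p - cf F q q p) ^ 2 + (cf F p p q - cf F q q q) ^ 2) ≤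
      2 * (m3 p p p * (F p p p * (F p p p - PT p q F p p p)) +
        3 * (m3 p p q * (F p p q * (F p p q - PT p q F p p q))) +
        3 * (m3 p q q * (F p q q * (F p q q - PT p q F p q q))) +
        m3 q q q * (F q q q * (F q q q - PT p q F q q q))) := by
    rw [pt_ppp, pt_ppq F hpq, pt_pqq F hpq, pt_qqq F hpq]
    have e1 : F p q p = F p p q := hS.2 p q p
    have e2 : F q p p = F p p q := by rw [hS.1 q p p, hS.2 p q p]
    have e3 : F q p q = F p q q := hS.1 q p q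
    have e4 : F q q p = F p q q := by rw [hS.2 q q p, hS.1 q p q]
    unfold cf kap S8
    rw [if_pos rfl, if_pos rfl, if_neg hpq, m3_ppp, m3_ppp, m3_ppq hpq, m3_pqq hpq,
      m3_ppq (Ne.symm hpq), m3_pqq (Ne.symm hpq), m3_swap1 q p q, m3_pqq hpq, e1, e2, e3, e4]
    nlinarith [sq_nonneg (F p p p - F q q q + F p p q - F p q q)]
  linarith [h0, h1, hd]

end Pool.Agent.BSE.H61
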