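import Pool.Agent.BSE.Stmts3
import Pool.Agent.Helper61_BSE.QF3

/-!
# Level 3: assembly
-/

open MeasureTheory Matrix Finset

namespace Pool.Agent.BSE.H61

open Pool.Agent.Helper64_FR

variable {n : ℕ}

section lin

theorem cub_add (F G : Fin n → Fin n → Fin n → ℝ) (c : Fin n → ℝ) :
    cub (fun i j k => F i j k + G i j k) c = cub F c + cub G c := by
  simp only [cub, add_mul, sum_add_distrib]

theorem cub_smul (a : ℝ) (F : Fin n → Fin n → Fin n → ℝ) (c : Fin n → ℝ) :
    cub (fun i j k => a * F i j k) c = a * cub F c := by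
  simp only [cub, mul_assoc, ← mul_sum]

theorem cub_sum {ι : Type*} (s : Finset ι) (w : ι → ℝ) (G : ι → Fin n → Fin n → Fin n → ℝ)
    (c : Fin n → ℝ) :
    cub (fun i j k => ∑ b ∈ s, w b * G b i j k) c = ∑ b ∈ s, w b * cub (G b) c := by
  classical
  induction s using Finset.induction_on with
  | empty => simp [cub]
  | insert a s ha ih =>
    simp only [sum_insert ha]
    rw [cub_add, ih, cub_smul]

theorem ip3_add (E F G : Fin n → Fin n → Fin n → ℝ) :
    ip3 E (fun i j k => F i j k + G i j k) = ip3 E F + ip3 E G := by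
  simp only [ip3, mul_add, sum_add_distrib]

theorem ip3_smul (a : ℝ) (E F : Fin n → Fin n → Fin n → ℝ) :
    ip3 E (fun i j k => a * F i j k) = a * ip3 E F := by
  unfold ip3
  have : ∀ i j k, m3 i j k * (E i j k * (a * F i j k)) = a * (m3 i j k * (E i j k * F i j k)) :=
    fun i j k => by ring
  simp only [this, ← mul_sum]

theorem ip3_sum {ι : Type*} (s : Finset ι) (w : ι → ℝ) (E : Fin n → Fin n → Fin n → ℝ)
    (G : ι → Fin n → Fin n → Fin n → ℝ) :
    ip3 E (fun i j k => ∑ b ∈ s, w b * G b i j k) = ∑ b ∈ s, w b * ip3 E (G b) := by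
  classical
  induction s using Finset.induction_on with
  | empty => simp [ip3]
  | insert a s ha ih =>
    simp only [sum_insert ha]
    rw [ip3_add, ih, ip3_smul]

theorem m3_pos (i j k : Fin n) : 0 < m3 i j k := by
  unfold m3; split_ifs <;> norm_num

theorem ip3_nonneg (F : Fin n → Fin n → Fin n → ℝ) : 0 ≤ ip3 F F := by
  unfold ip3
  refine sum_nonneg fun i _ => sum_nonneg fun j _ => sum_nonneg fun k _ => ?_
  exact mul_nonneg (m3_pos i j k).le (mul_self_nonneg _)

theorem ip3_pos (F : Fin n → Fin n → Fin n → ℝ) {c : Fin n → ℝ} (h : cub F c ≠ 0) :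
    0 < ip3 F F := by
  rcases (ip3_nonneg F).lt_or_eq with h1 | h1
  · exact h1
  · exfalso
    apply h
    have h2 : ∀ i j k, F i j k = 0 := by
      intro i j k
      unfold ip3 at h1
      have a1 := (sum_eq_zero_iff_of_nonneg (fun i _ => sum_nonneg fun j _ =>
        sum_nonneg fun k _ => mul_nonneg (m3_pos i j k).le (mul_self_nonneg (F i j k)))).1
        h1.symm i (mem_univ i)
      have a2 := (sum_eq_zero_iff_of_nonneg (fun j _ =>
        sum_nonneg fun k _ => mul_nonneg (m3_pos i j k).le (mul_self_nonneg (F i j k)))).1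
        a1 j (mem_univ j)
      have a3 := (sum_eq_zero_iff_of_nonneg (fun k _ =>
        mul_nonneg (m3_pos i j k).le (mul_self_nonneg (F i j k)))).1
        a2 k (mem_univ k)
      rcases mul_eq_zero.1 a3 with a4 | a4
      · exact absurd a4 (m3_pos i j k).ne'
      · exact mul_self_eq_zero.1 a4
    unfold cub
    simp [h2]

end lin

section one

theorem dv_small {B : Finset (Fin n)} (hB : B.card ≤ 1) (y : Fin n → ℝ) :
    ∑ i, H47.dv B y i ^ 2 = 0 := by
  refine sum_eq_zero fun i _ => ?_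
  by_cases h : i ∈ B
  · have h1 : B = {i} := by
      apply Finset.eq_singleton_iff_unique_mem.2
      exact ⟨h, fun j hj => Finset.card_le_one.1 hB j hj i h⟩
    rw [H47.dv_of_mem h, h1]
    simp
  · rw [H47.dv_of_notMem h]
    ring

theorem dv_pair {p q : Fin n} (hpq : p ≠ q) (y : Fin n → ℝ) :
    ∑ i, H47.dv ({p, q} : Finset (Fin n)) y i ^ 2 = (1 / 2) * (y p - y q) ^ 2 := by
  have hc : ((({p, q} : Finset (Fin n)).card : ℕ) : ℝ) = 2 := by
    rw [Finset.card_pair hpq]; norm_num
  rw [split1 hpq]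
  have h1 : ∑ i ∈ RR p q, H47.dv ({p, q} : Finset (Fin n)) y i ^ 2 = 0 := by
    refine sum_eq_zero fun i hi => ?_
    obtain ⟨i1, i2⟩ := mem_RR hi
    rw [H47.dv_of_notMem (by simp [i1, i2])]
    ring
  rw [h1, H47.dv_of_mem (by simp), H47.dv_of_mem (by simp), hc, Finset.sum_pair hpq]
  ring

theorem dv_univ (hn : 0 < n) (y : Fin n → ℝ) :
    (n : ℝ) * ∑ i, H47.dv univ y i ^ 2 = n * ∑ i, y i ^ 2 - (∑ i, y i) ^ 2 := by
  have hn' : (n : ℝ) ≠ 0 := by positivity
  have h1 : ∀ i, H47.dv univ y i ^ 2 = y i ^ 2 - 2 * ((∑ j, y j) / n) * y i +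
      ((∑ j, y j) / n) ^ 2 := fun i => by
    rw [H47.dv_of_mem (mem_univ i), Finset.card_univ, Fintype.card_fin]
    ring
  simp only [h1, sum_add_distrib, sum_sub_distrib, ← mul_sum, sum_const, card_univ,
    Fintype.card_fin, nsmul_eq_mul]
  field_simp
  ring

/-- the certificate form of a block -/
noncomputable def KB (F : Fin n → Fin n → Fin n → ℝ) (B : Finset (Fin n)) : ℝ :=
  (∑ k, ∑ l, kap k l * ∑ i, H47.dv B (fun i => cf F i k l) i ^ 2) +
    (1 / 3) * ∑ m, ∑ i, H47.dv B (fun i => cf F i i m) i ^ 2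

theorem KB_nonneg (F : Fin n → Fin n → Fin n → ℝ) (B : Finset (Fin n)) : 0 ≤ KB F B := by
  unfold KB
  refine add_nonneg (sum_nonneg fun k _ => sum_nonneg fun l _ => mul_nonneg (kap_nn k l)
    (sum_nonneg fun i _ => sq_nonneg _)) (mul_nonneg (by norm_num)
    (sum_nonneg fun m _ => sum_nonneg fun i _ => sq_nonneg _))

theorem KB_small (F : Fin n → Fin n → Fin n → ℝ) {B : Finset (Fin n)} (hB : B.card ≤ 1) :
    KB F B = 0 := by
  unfold KB
  simp only [dv_small hB]
  simp

theorem KB_pair (F : Fin n → Fin n → Fin n → ℝ) {p q : Fin n} (hpq : p ≠ q) :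
    KB F {p, q} = (1 / 2) * kpair F p q := by
  unfold KB kpair
  simp only [dv_pair hpq]
  have h1 : ∀ k l, kap k l * (1 / 2 * (cf F p k l - cf F q k l) ^ 2) =
      1 / 2 * (kap k l * (cf F p k l - cf F q k l) ^ 2) := fun k l => by ring
  simp only [h1, ← mul_sum]
  ring

theorem KB_univ (hn : 0 < n) (F : Fin n → Fin n → Fin n → ℝ) (hS : Sym3 F) (hT : Tin3 F) :
    ip3 F F ≤ KB F univ := by
  have hn' : (0 : ℝ) < n := by exact_mod_cast hn
  have h1 := tot3 F hS hT
  rw [sum_kpair] at h1
  have h2 : (n : ℝ) * KB F univ = (n * (∑ k, ∑ l, kap k l * ∑ i, cf F i k l ^ 2) -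
        ∑ k, ∑ l, kap k l * (∑ i, cf F i k l) ^ 2) +
      (1 / 3) * (n * (∑ m, ∑ i, cf F i i m ^ 2) - ∑ m, (∑ i, cf F i i m) ^ 2) := by
    unfold KB
    have e1 : (n : ℝ) * (∑ k, ∑ l, kap k l * ∑ i, H47.dv univ (fun i => cf F i k l) i ^ 2) =
        n * (∑ k, ∑ l, kap k l * ∑ i, cf F i k l ^ 2) -
        ∑ k, ∑ l, kap k l * (∑ i, cf F i k l) ^ 2 := by
      rw [mul_sum, mul_sum, ← sum_sub_distrib]
      refine sum_congr rfl fun k _ => ?_
      rw [mul_sum, mul_sum, ← sum_sub_distrib]
      refine sum_congr rfl fun l _ => ?_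
      have := dv_univ hn (fun i => cf F i k l)
      linear_combination (kap k l) * this
    have e2 : (n : ℝ) * (∑ m, ∑ i, H47.dv univ (fun i => cf F i i m) i ^ 2) =
        n * (∑ m, ∑ i, cf F i i m ^ 2) - ∑ m, (∑ i, cf F i i m) ^ 2 := by
      rw [mul_sum, mul_sum, ← sum_sub_distrib]
      exact sum_congr rfl fun m _ => dv_univ hn (fun i => cf F i i m)
    rw [mul_add, e1]
    linear_combination (1 / 3) * e2
  have h3 : (n : ℝ) * ip3 F F ≤ n * KB F univ := by
    rw [h2]
    linarith
  exact le_of_mul_le_mul_left h3 hn'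

theorem KB_one (F : Fin n → Fin n → Fin n → ℝ) {w : Finset (Fin n) → ℝ} {μ : ℝ}
    (h : OneBody w μ) : μ * KB F univ ≤ ∑ B, w B * KB F B := by
  have e1 : ∑ B, w B * KB F B =
      (∑ k, ∑ l, kap k l * ∑ B, w B * ∑ i, H47.dv B (fun i => cf F i k l) i ^ 2) +
      (1 / 3) * ∑ m, ∑ B, w B * ∑ i, H47.dv B (fun i => cf F i i m) i ^ 2 := by
    have a1 : ∀ B, w B * KB F B =
        (∑ k, ∑ l, kap k l * (w B * ∑ i, H47.dv B (fun i => cf F i k l) i ^ 2)) +
        (1 / 3) * ∑ m, (w B * ∑ i, H47.dv B (fun i => cf F i i m) i ^ 2) := fun B => by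
      unfold KB
      rw [mul_add, mul_sum]
      congr 1
      · refine sum_congr rfl fun k _ => ?_
        rw [mul_sum]
        exact sum_congr rfl fun l _ => by ring
      · rw [← mul_sum]; ring
    simp only [a1, sum_add_distrib]
    congr 1
    · rw [sum_comm]
      refine sum_congr rfl fun k _ => ?_
      rw [sum_comm]
      refine sum_congr rfl fun l _ => ?_
      rw [mul_sum]
    · rw [← mul_sum, sum_comm]
  rw [e1]
  unfold KB
  rw [mul_add]
  refine add_le_add ?_ ?_
  · rw [mul_sum]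
    refine sum_le_sum fun k _ => ?_
    rw [mul_sum]
    refine sum_le_sum fun l _ => ?_
    have := mul_le_mul_of_nonneg_left (h (fun i => cf F i k l)) (kap_nn k l)
    calc μ * (kap k l * ∑ i, H47.dv univ (fun i => cf F i k l) i ^ 2)
        = kap k l * (μ * ∑ i, H47.dv univ (fun i => cf F i k l) i ^ 2) := by ring
      _ ≤ _ := this
  · have : ∑ m, μ * ∑ i, H47.dv univ (fun i => cf F i i m) i ^ 2 ≤
        ∑ m, ∑ B, w B * ∑ i, H47.dv B (fun i => cf F i i m) i ^ 2 :=
      sum_le_sum fun m _ => h (fun i => cf F i i m)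
    rw [← mul_sum] at this
    linarith

end one

theorem cub_of (rf3 : RF3Stmt) (in3 : IN3Stmt) (av3 : AV3Stmt) (un3 : UN3Stmt) : CUBStmt := by
  intro n w hw hsup μ x f hone hridge hne heig
  obtain ⟨F, hS, hT, ⟨c0, hc0⟩, hE⟩ := rf3 n w x f hridge hne heig
  have hn : 0 < n := by
    rcases Nat.eq_zero_or_pos n with h | h
    · subst h
      exfalso
      apply hc0
      simp [cub]
    · exact h
  obtain ⟨in1, in2, in4⟩ := in3 n F hS hT
  have hip := ip3_pos F hc0
  -- the tensors of the blocks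
  have hG : ∀ B : Finset (Fin n), ∃ G : Fin n → Fin n → Fin n → ℝ, Sym3 G ∧
      (∀ c, w B * (cub F c - ∫ A : UB B, cub F (TB B (A : UU n) c) ∂(haarB B)) =
        w B * cub G c) ∧
      (B.card ≤ 2 → w B * KB F B ≤ w B * ip3 F G) ∧
      (2 < B.card → w B * ip3 F G = w B * ip3 F F ∧ w B * KB F B = w B * KB F univ) := by
    intro B
    rcases le_or_gt B.card 1 with h1 | h1
    · refine ⟨fun _ _ _ => 0, ⟨fun _ _ _ => rfl, fun _ _ _ => rfl⟩, fun c => ?_, fun _ => ?_,
        fun h => absurd h (by omega)⟩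
      · rw [in1 B h1 c]
        simp [cub]
      · rw [KB_small F h1]
        simp [ip3]
    · rcases le_or_gt B.card 2 with h2 | h2
      · obtain ⟨p, q, hpq, rfl⟩ := Finset.card_eq_two.1 (le_antisymm h2 h1)
        have hP := PT_sym p q F hS
        refine ⟨fun i j k => F i j k - PT p q F i j k,
          ⟨fun i j k => congrArg₂ (· - ·) (hS.1 i j k) (hP.1 i j k), fun i j k =>
            congrArg₂ (· - ·) (hS.2 i j k) (hP.2 i j k)⟩, fun c => ?_, fun _ => ?_,
          fun h => absurd h (by omega)⟩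
        · rw [in2 p q hpq c, (av3 n p q hpq F hS).2 c]
          congr 1
          unfold cub
          simp only [← sum_sub_distrib, sub_mul]
        · rw [KB_pair F hpq]
          refine mul_le_mul_of_nonneg_left ?_ (hw _)
          have h3 := qf3 n p q hpq F hS
          have h4 : ip3 F (fun i j k => F i j k - PT p q F i j k) =
              ip3 F F - ip3 F (PT p q F) := by
            unfold ip3
            simp only [← sum_sub_distrib, mul_sub]
          rw [h4]
          linarith
      · by_cases hB : w B = 0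
        · exact ⟨F, hS, fun c => by rw [hB]; ring, fun h => absurd h (by omega),
            fun _ => ⟨rfl, by rw [hB]; ring⟩⟩
        · rcases hsup B hB with h3 | h3
          · exact absurd h3 (by omega)
          · subst h3
            refine ⟨F, hS, fun c => ?_, fun h => absurd h (by omega), fun _ => ⟨rfl, rfl⟩⟩
            rw [in4 c, sub_zero]
  choose G hG1 hG2 hG3 hG4 using hG
  -- the tensor equation
  have hten : ∀ i j k, ∑ B, w B * G B i j k + (-x) * F i j k = 0 := by
    apply un3 n (fun i j k => ∑ B, w B * G B i j k + (-x) * F i j k)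
    · constructor
      · intro i j k
        show ∑ B, w B * G B i j k + (-x) * F i j k = ∑ B, w B * G B j i k + (-x) * F j i k
        rw [hS.1 i j k]
        congr 1
        exact sum_congr rfl fun B _ => by rw [(hG1 B).1 i j k]
      · intro i j k
        show ∑ B, w B * G B i j k + (-x) * F i j k = ∑ B, w B * G B i k j + (-x) * F i k j
        rw [hS.2 i j k]
        congr 1
        exact sum_congr rfl fun B _ => by rw [(hG1 B).2 i j k]
    · intro c
      rw [cub_add, cub_sum, cub_smul, ← sum_congr rfl fun B _ => hG2 B c, hE c]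
      ring
  have hsum : ∑ B, w B * ip3 F (G B) = x * ip3 F F := by
    rw [← ip3_sum, ← ip3_smul]
    congr 1
    funext i j k
    linarith [hten i j k]
  -- split the sums
  have s1 : ∑ B, w B * ip3 F (G B) =
      ∑ B with B.card ≤ 2, w B * ip3 F (G B) + ∑ B with ¬ B.card ≤ 2, w B * ip3 F (G B) :=
    (sum_filter_add_sum_filter_not univ _ _).symm
  have s2 : ∑ B, w B * KB F B =
      ∑ B with B.card ≤ 2, w B * KB F B + ∑ B with ¬ B.card ≤ 2, w B * KB F B :=
    (sum_filter_add_sum_filter_not univ _ _).symm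
  have s3 : ∑ B with ¬ B.card ≤ 2, w B * ip3 F (G B) =
      (∑ B : Finset (Fin n) with ¬ B.card ≤ 2, w B) * ip3 F F := by
    rw [sum_mul]
    refine sum_congr rfl fun B hB => ?_
    rw [mem_filter] at hB
    exact (hG4 B (by omega)).1
  have s4 : ∑ B with ¬ B.card ≤ 2, w B * KB F B =
      (∑ B : Finset (Fin n) with ¬ B.card ≤ 2, w B) * KB F univ := by
    rw [sum_mul]
    refine sum_congr rfl fun B hB => ?_
    rw [mem_filter] at hB
    exact (hG4 B (by omega)).2
  have s5 : ∑ B with B.card ≤ 2, w B * KB F B ≤ ∑ B with B.card ≤ 2, w B * ip3 F (G B) := by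
    refine sum_le_sum fun B hB => ?_
    rw [mem_filter] at hB
    exact hG3 B hB.2
  have s6 : 0 ≤ ∑ B with B.card ≤ 2, w B * KB F B :=
    sum_nonneg fun B _ => mul_nonneg (hw B) (KB_nonneg F B)
  have h1 := KB_one F hone
  have h2 := KB_univ hn F hS hT
  rw [s2, s4] at h1
  rw [s1, s3] at hsum
  set W := ∑ B : Finset (Fin n) with ¬ B.card ≤ 2, w B with hW
  have h5 : μ * ip3 F F ≤ x * ip3 F F := by
    rcases le_total μ W with h6 | h6
    · have := mul_le_mul_of_nonneg_right h6 hip.le
      linarith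
    · have := mul_le_mul_of_nonneg_left h2 (sub_nonneg.2 h6)
      nlinarith
  exact le_of_mul_le_mul_right h5 hip

end Pool.Agent.BSE.H61
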